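import Pool.Agent.Q92.DTC.Main

/-!
# A countable FC group with a one element DTC set (MP_1a7a11_al, Q1 and Q2)

`G` is the restricted direct product of the dihedral groups with `2 (i + 1)` elements, `i ≥ 0`. Let
`y_n = (r, r, …, r, s, 1, 1, …)` with the rotation `r` of order `i + 1` at the coordinates `i < n`
and the reflection `s` at the coordinate `n`, and let `v` be a nonprincipal ultrafilter on the set
of the `y_n`. If the last nontrivial coordinate of `x`, number `n` say, is `s` then `x` can be
divided by `y_n`; let `B(x)` be the set of the `n` used when one repeats this as long as it is
possible. For `n` large with respect to `x` one has `B(x y_n) = B(x) ∪ {n}`. For `n` fixed and `x`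
running through a nonprincipal ultrafilter `u` the sets `B(x y_n)` and `B(x)` agree above `n`, and
both products of `u` and `v` are separated by the parity of the size of `B`, of the part of `B`
above a slowly growing function of the size of `B`, or by the size of `B`, if it is constant along
`u`: in that case one uses that `s` does not commute with the powers `r^b`, `1 ≤ b < (n + 1) / 2`.
-/

set_option autoImplicit false

namespace Pool.Agent.Results.MP_1a7a11_al.DihedralSum

open Pool.Agent.Q92.DTC

/-- There is a countably infinite FC group `G` and a single ultrafilter `v` on `G` such that
`u □ v ≠ u ◇ v` for every nonprincipal ultrafilter `u` on `G`. -/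
theorem result :
    ∃ (G : Type) (_ : Group G), Infinite G ∧ Countable G ∧ IsFC G ∧
      ∃ v : Ultrafilter G, ∀ u : Ultrafilter G, (∀ x, u ≠ pure x) → box u v ≠ diamond u v :=
  ⟨RD, inferInstance, infinite_RD, countable_RD, isFC_RD, vv, box_ne⟩

end Pool.Agent.Results.MP_1a7a11_al.DihedralSum
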